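import Pool.Agent.H86.CMLib.R912.U14
import Pool.Agent.H86.CMLib.Y102.V13

set_option autoImplicit false
set_option linter.unusedSectionVars false
set_option linter.unusedSimpArgs false
set_option linter.unusedVariables false

/-!
# Abelian varieties of unitary spin type
-/

open Module Function TensorProduct

noncomputable section

namespace Pool.Agent.R912

open Pool.Agent.Y102 Pool.Agent.W516.DR Pool.Agent.H204R3.GP Pool.Agent.W516.KC
  Pool.Agent.H204R3.SP

variable {g : ℕ} {A : AbVar g} {𝔥 : Submodule ℚ (Module.End ℚ A.H1)} {N k : ℕ} {c : Fin N → Fin k}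

section

variable {a b : Fin N → Module.End ℂ (ℂ ⊗[ℚ] A.H1)}

theorem hyp_of_full (h : A.Full 𝔥) (hab : CAR a b) (hl : cx A.NA = glC a b c) :
    Hyp (cx 𝔥) (cx (der 𝔥)) a b c where
  car := hab
  Lle := cx_mono h.der_le
  le := hl ▸ cx_mono h.le
  dec := fun y hy => by
    obtain ⟨Z, hZ, d, hd, h1, h2⟩ := h.cx_dec y hy
    exact ⟨Z, hZ, d, hd, h1, h2⟩
  Lbr := cx_br fun X hX Y hY => by
    rw [← bc_br]
    exact bc_mem (Submodule.subset_span ⟨X, h.der_le hX, Y, h.der_le hY, rfl⟩)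
  perf := h.cx_perfect
  gen := fun i j hij => by
    have h1 : gij a b i j ∈ Algebra.adjoin ℂ (cx 𝔥 : Set (Module.End ℂ (ℂ ⊗[ℚ] A.H1))) := by
      refine h.cx_adjoin _ ?_
      rw [hl]
      exact Submodule.subset_span ⟨i, j, hij, rfl⟩
    have h2 : a i * b j = gij a b i j + if i = j then (2⁻¹ : ℂ) • 1 else 0 := by
      unfold gij
      rw [sub_add_cancel]
    rw [h2]
    refine Subalgebra.add_mem _ h1 ?_
    split_ifs
    · exact Subalgebra.smul_mem _ (Subalgebra.one_mem _) _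
    · exact Subalgebra.zero_mem _

/-- Full subalgebras contain the derived algebra. -/
theorem full_unitary (h : A.Full 𝔥) (hab : CAR a b) (hl : cx A.NA = glC a b c)
    (hev : ∀ i, Even (Finset.univ.filter fun j => c j = c i).card) {X Y : Module.End ℚ A.H1}
    (hX : X ∈ A.NA) (hY : Y ∈ A.NA) : X * Y - Y * X ∈ 𝔥 := by
  refine mem_of_bc ?_
  rcases subsingleton_or_nontrivial (ℂ ⊗[ℚ] A.H1) with hs | hn
  · have : (X * Y - Y * X).baseChange ℂ = 0 := by
      ext x
      exact Subsingleton.elim _ _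
    rw [this]
    exact Submodule.zero_mem _
  · rw [bc_br]
    exact cx_mono h.der_le ((hyp_of_full h hab hl).main hev (hl ▸ bc_mem hX) (hl ▸ bc_mem hY))

/-- Full subalgebras are everything if there is one colour. -/
theorem full_unitary1 (h : A.Full 𝔥) (hab : CAR a b) (hl : cx A.NA = glC a b c)
    (hev : ∀ i, Even (Finset.univ.filter fun j => c j = c i).card) (hc : ∀ i j, c i = c j) :
    A.NA ≤ 𝔥 := by
  intro X hX
  refine mem_of_bc ?_
  rcases subsingleton_or_nontrivial (ℂ ⊗[ℚ] A.H1) with hs | hn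
  · have : X.baseChange ℂ = 0 := by
      ext x
      exact Subsingleton.elim _ _
    rw [this]
    exact Submodule.zero_mem _
  · have hH := hyp_of_full h hab hl
    have hmain : ∀ p q, c p = c q → p ≠ q → a p * b q ∈ cx 𝔥 := by
      intro p q _ hpq
      have h1 := hH.main hev (X := gij a b p p) (Y := gij a b p q)
        (Submodule.subset_span ⟨p, p, rfl, rfl⟩) (Submodule.subset_span ⟨p, q, hc _ _, rfl⟩)
      rw [hab.br_gg, if_pos rfl, if_neg hpq, sub_zero] at h1
      exact hH.Lle h1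
    have hdiag := hab.diag_mem (L := cx 𝔥) h.cx_br' hmain
    refine hab.one_colour hc hH.le hmain hdiag (fun Z hZ Y hY => ?_) (hl ▸ bc_mem hX)
    rw [← hl] at hY
    exact h.cx_com Z hZ Y hY

end

/-- the generators as matrices -/
def gM {n : ℕ} (a b : Fin N → Matrix (Fin n) (Fin n) ℂ) (i j : Fin N) :
    Matrix (Fin n) (Fin n) ℂ := a i * b j - if i = j then (2⁻¹ : ℂ) • 1 else 0

section Mat

variable {a b : Fin N → Matrix (Fin (2 * g)) (Fin (2 * g)) ℂ}

theorem car_mat (aa : ∀ i j, a i * a j = -(a j * a i)) (bb : ∀ i j, b i * b j = -(b j * b i))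
    (ab : ∀ i j, a i * b j + b j * a i = if i = j then 1 else 0) :
    CAR (fun i => matE (2 * g) (a i)) (fun i => matE (2 * g) (b i)) where
  aa i j := by rw [← map_mul, aa, map_neg, map_mul]
  bb i j := by rw [← map_mul, bb, map_neg, map_mul]
  ab i j := by
    rw [← map_mul, ← map_mul, ← map_add, ab]
    split_ifs
    · rw [map_one]
    · rw [map_zero]

theorem map_glC : (Submodule.span ℂ {Y | ∃ i j, c i = c j ∧ Y = gM a b i j}).map
    (matE (2 * g)).toLinearMap =
      glC (fun i => matE (2 * g) (a i)) (fun i => matE (2 * g) (b i)) c := by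
  have key : ∀ i j, matE (2 * g) (gM a b i j) =
      gij (fun i => matE (2 * g) (a i)) (fun i => matE (2 * g) (b i)) i j := by
    intro i j
    unfold gM gij
    rw [map_sub, map_mul]
    congr 1
    split_ifs
    · rw [map_smul, map_one]
    · rw [map_zero]
  rw [Submodule.map_span]
  unfold glC
  congr 1
  ext Y
  constructor
  · rintro ⟨_, ⟨i, j, hij, rfl⟩, rfl⟩
    exact ⟨i, j, hij, key i j⟩
  · rintro ⟨i, j, hij, rfl⟩
    exact ⟨_, ⟨i, j, hij, rfl⟩, key i j⟩

variable (aa : ∀ i j, a i * a j = -(a j * a i)) (bb : ∀ i j, b i * b j = -(b j * b i))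
  (ab : ∀ i j, a i * b j + b j * a i = if i = j then 1 else 0)
  (hev : ∀ i, Even (Finset.univ.filter fun j => c j = c i).card)
  (hl : Submodule.span ℂ {Y | ∃ X ∈ A.NA, Y = toC X} =
    Submodule.span ℂ {Y | ∃ i j, c i = c j ∧ Y = gM a b i j})
include aa bb ab hev hl

theorem cx_NA_eq : cx A.NA =
    glC (fun i => matE (2 * g) (a i)) (fun i => matE (2 * g) (b i)) c := by
  rw [← map_lie, hl, map_glC]

/-- De Rham-Betti classes killed by the centre are Hodge classes. -/
theorem hodge_unitary {m : ℕ} {ξ : MultilinearMap ℚ (fun _ : Fin m × Fin 2 => A.H1) ℚ}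
    (hξ : IsDeRhamBettiForm QBar A.dR tau m ξ) (hz : ∀ X ∈ A.CN, Kills X ξ) :
    IsHodgeTensor (A.per : A.H1 →+ (Fin g → ℂ)) ξ :=
  A.hodge_of_le (A.NA_le_of_rigid fun X hX Y hY =>
    full_unitary A.full_LA (car_mat aa bb ab) (cx_NA_eq aa bb ab hev hl) hev hX hY) hξ hz

/-- For one colour all de Rham-Betti classes are Hodge classes. -/
theorem hodge_unitary1 (hc : ∀ i j, c i = c j) {m : ℕ}
    {ξ : MultilinearMap ℚ (fun _ : Fin m × Fin 2 => A.H1) ℚ}
    (hξ : IsDeRhamBettiForm QBar A.dR tau m ξ) :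
    IsHodgeTensor (A.per : A.H1 →+ (Fin g → ℂ)) ξ :=
  hodge_of_kills _ A.isRationalStructure ξ fun Z hZ =>
    (full_unitary1 A.full_LA (car_mat aa bb ab) (cx_NA_eq aa bb ab hev hl) hev hc)
      (A.MA_le_NA hZ) m ξ hξ

end Mat

/-! ## Homomorphisms -/

/-- `f` is a homomorphism (up to isogeny) from `B` to `A`: it is given by a linear map of the tangent
spaces, and the pull backs of the algebraic differential forms are algebraic. -/
structure IsHom {g' g : ℕ} (B : AbVar g') (A : AbVar g) (f : B.H1 →ₗ[ℚ] A.H1) : Prop where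
  tangent : ∃ F : (Fin g' → ℂ) →ₗ[ℂ] (Fin g → ℂ), ∀ w, F (B.per w) = A.per (f w)
  algebraic : ∃ e : Fin g ⊕ Fin g → Fin g' ⊕ Fin g' → QBar,
    ∀ i w, A.dR i (f w) = ∑ j, algebraMap QBar ℂ (e i j) * B.dR j w

theorem isHom_id (A : AbVar g) : IsHom A A LinearMap.id where
  tangent := ⟨LinearMap.id, fun w => rfl⟩
  algebraic := by
    classical
    refine ⟨fun i j => if i = j then 1 else 0, fun i w => ?_⟩
    rw [Finset.sum_eq_single i]
    · beta_reduce
      rw [if_pos rfl, map_one, one_mul]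
      rfl
    · intro j _ hj
      beta_reduce
      rw [if_neg (Ne.symm hj), map_zero, zero_mul]
    · intro h
      exact absurd (Finset.mem_univ _) h

theorem drb_comp {g' : ℕ} {B : AbVar g'} {p : A.H1 →ₗ[ℚ] B.H1} (hp : IsHom A B p) {m : ℕ}
    {ξ : MultilinearMap ℚ (fun _ : Fin m × Fin 2 => B.H1) ℚ}
    (hξ : IsDeRhamBettiForm QBar B.dR tau m ξ) :
    IsDeRhamBettiForm QBar A.dR tau m (ξ.compLinearMap fun _ => p) := by
  classical
  obtain ⟨r, hr⟩ := hξ
  obtain ⟨e, he⟩ := hp.algebraic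
  refine ⟨fun J' => ∑ J, r J * ∏ l, e (J l) (J' l), fun v => ?_⟩
  have h1 : tau ^ m * algebraMap ℚ ℂ ((ξ.compLinearMap fun _ => p) v) =
      ∑ J, algebraMap QBar ℂ (r J) * ∏ l, B.dR (J l) (p (v l)) := hr fun l => p (v l)
  rw [h1]
  have h2 : ∀ J : Fin m × Fin 2 → Fin g' ⊕ Fin g', ∏ l, B.dR (J l) (p (v l)) =
      ∑ J' : Fin m × Fin 2 → Fin g ⊕ Fin g,
        (∏ l, algebraMap QBar ℂ (e (J l) (J' l))) * ∏ l, A.dR (J' l) (v l) := by
    intro J
    rw [Finset.prod_congr rfl fun l _ => he (J l) (v l), Finset.prod_univ_sum,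
      Fintype.piFinset_univ]
    exact Finset.sum_congr rfl fun J' _ => Finset.prod_mul_distrib
  have h3 : ∀ J : Fin m × Fin 2 → Fin g' ⊕ Fin g',
      algebraMap QBar ℂ (r J) * ∏ l, B.dR (J l) (p (v l)) =
      ∑ J' : Fin m × Fin 2 → Fin g ⊕ Fin g,
        algebraMap QBar ℂ (r J * ∏ l, e (J l) (J' l)) * ∏ l, A.dR (J' l) (v l) := by
    intro J
    rw [h2, Finset.mul_sum]
    refine Finset.sum_congr rfl fun J' _ => ?_
    rw [map_mul, map_prod, mul_assoc]
  rw [Finset.sum_congr rfl fun J _ => h3 J, Finset.sum_comm]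
  refine Finset.sum_congr rfl fun J' _ => ?_
  rw [map_sum, Finset.sum_mul]

theorem hodge_comp {g' : ℕ} {B : AbVar g'} {f : B.H1 →ₗ[ℚ] A.H1} (hf : IsHom B A f) {m : ℕ}
    {ψ : MultilinearMap ℚ (fun _ : Fin m × Fin 2 => A.H1) ℚ}
    (hψ : IsHodgeTensor (A.per : A.H1 →+ (Fin g → ℂ)) ψ) :
    IsHodgeTensor (B.per : B.H1 →+ (Fin g' → ℂ)) (ψ.compLinearMap fun _ => f) := by
  obtain ⟨Ψ, h1, h2⟩ := hψ
  obtain ⟨F, hF⟩ := hf.tangent
  refine ⟨Ψ.compLinearMap fun _ => F.restrictScalars ℝ, fun v => ?_, fun z hz u => ?_⟩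
  · change Ψ (fun l => F (B.per (v l))) = ψ (fun l => f (v l))
    rw [← h1]
    congr 1
    funext l
    exact hF (v l)
  · change Ψ (fun l => F (z • u l)) = Ψ (fun l => F (u l))
    rw [← h2 z hz fun l => F (u l)]
    congr 1
    funext l
    exact map_smul F z (u l)

/-- Transfer to factors. -/
theorem hodge_factor {g' : ℕ} {B : AbVar g'} {f : B.H1 →ₗ[ℚ] A.H1} {p : A.H1 →ₗ[ℚ] B.H1}
    (hf : IsHom B A f) (hp : IsHom A B p) (hpf : ∀ w, p (f w) = w) {m : ℕ}
    (hA : ∀ ψ : MultilinearMap ℚ (fun _ : Fin m × Fin 2 => A.H1) ℚ,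
      IsDeRhamBettiForm QBar A.dR tau m ψ → IsHodgeTensor (A.per : A.H1 →+ (Fin g → ℂ)) ψ)
    {ξ : MultilinearMap ℚ (fun _ : Fin m × Fin 2 => B.H1) ℚ}
    (hξ : IsDeRhamBettiForm QBar B.dR tau m ξ) :
    IsHodgeTensor (B.per : B.H1 →+ (Fin g' → ℂ)) ξ := by
  have h1 := hodge_comp hf (hA _ (drb_comp hp hξ))
  have h2 : (ξ.compLinearMap fun _ => p).compLinearMap (fun _ => f) = ξ := by
    refine MultilinearMap.ext fun v => ?_
    change ξ (fun l => p (f (v l))) = ξ v
    congr 1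
    funext l
    exact hpf (v l)
  rw [h2] at h1
  exact h1

end Pool.Agent.R912
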