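import Pool.Agent.H86.CMLib.R912.U10

set_option autoImplicit false
set_option linter.unusedSectionVars false

/-!
# Existence of the root decomposition and of a basis of weight vectors
-/

open Module

namespace Pool.Agent.R912

open Pool.Agent.Y102.SP

attribute [local instance 100] LieRing.ofAssociativeRing

variable {U : Type} [AddCommGroup U] [Module ℂ U]
  {L 𝔥 : Submodule ℂ (Module.End ℂ U)}
  {N k : ℕ} {a b : Fin N → Module.End ℂ U} {c : Fin N → Fin k}

section Change

/-- coefficients in a span -/
theorem span_coef {W : Type} [AddCommGroup W] [Module ℂ W] {u : Fin N → W} {σ : Fin k} {w : W}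
    (hw : w ∈ Submodule.span ℂ {w | ∃ i, c i = σ ∧ w = u i}) :
    ∃ t : Fin N → ℂ, (∀ i, t i ≠ 0 → c i = σ) ∧ w = ∑ i, t i • u i := by
  classical
  induction hw using Submodule.span_induction with
  | mem w hw =>
    obtain ⟨i, hi, rfl⟩ := hw
    refine ⟨fun j => if j = i then 1 else 0, fun j hj => ?_, ?_⟩
    · by_cases h1 : j = i
      · rw [h1, hi]
      · exact absurd (if_neg h1) hj
    · rw [Finset.sum_eq_single i]
      · beta_reduce
        rw [if_pos rfl, one_smul]
      · intro j _ hj
        beta_reduce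
        rw [if_neg hj, zero_smul]
      · intro h
        exact absurd (Finset.mem_univ _) h
  | zero => exact ⟨0, fun i h => absurd rfl h, by simp⟩
  | add u v _ _ hu hv =>
    obtain ⟨s, hs, rfl⟩ := hu
    obtain ⟨t, ht, rfl⟩ := hv
    refine ⟨fun i => s i + t i, fun i hi => ?_, ?_⟩
    · by_contra hc
      have h1 : s i = 0 := by
        by_contra h1
        exact hc (hs i h1)
      have h2 : t i = 0 := by
        by_contra h2
        exact hc (ht i h2)
      exact hi (by beta_reduce; rw [h1, h2, add_zero])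
    · rw [← Finset.sum_add_distrib]
      exact Finset.sum_congr rfl fun i _ => (add_smul _ _ _).symm
  | smul r u _ hu =>
    obtain ⟨s, hs, rfl⟩ := hu
    refine ⟨fun i => r * s i, fun i hi => hs i fun h0 => hi (by beta_reduce; rw [h0, mul_zero]), ?_⟩
    rw [Finset.smul_sum]
    exact Finset.sum_congr rfl fun i _ => smul_smul _ _ _

/-- the new creation operators -/
noncomputable def ca (G : Matrix (Fin N) (Fin N) ℂ) (a : Fin N → Module.End ℂ U) (i : Fin N) :
    Module.End ℂ U := ∑ j, G j i • a j

/-- the new annihilation operators -/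
noncomputable def cb (H : Matrix (Fin N) (Fin N) ℂ) (b : Fin N → Module.End ℂ U) (i : Fin N) :
    Module.End ℂ U := ∑ j, H i j • b j

theorem ca_ca {G H : Matrix (Fin N) (Fin N) ℂ} (hGH : G * H = 1) (a : Fin N → Module.End ℂ U)
    (l : Fin N) : a l = ∑ i, H i l • ca G a i := by
  have h1 : ∑ i, H i l • ca G a i = ∑ j, (G * H) j l • a j := by
    have h2 : ∀ i, H i l • ca G a i = ∑ j, (G j i * H i l) • a j := by
      intro i
      unfold ca
      rw [Finset.smul_sum]
      exact Finset.sum_congr rfl fun j _ => by rw [smul_smul, mul_comm]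
    rw [Finset.sum_congr rfl fun i _ => h2 i, Finset.sum_comm]
    refine Finset.sum_congr rfl fun j _ => ?_
    rw [← Finset.sum_smul, Matrix.mul_apply]
  rw [h1, hGH, Finset.sum_eq_single l]
  · rw [Matrix.one_apply_eq, one_smul]
  · intro j _ hj
    rw [Matrix.one_apply_ne hj, zero_smul]
  · intro h
    exact absurd (Finset.mem_univ _) h

theorem cb_cb {G H : Matrix (Fin N) (Fin N) ℂ} (hGH : G * H = 1) (b : Fin N → Module.End ℂ U)
    (l : Fin N) : b l = ∑ j, G l j • cb H b j := by
  have h1 : ∑ j, G l j • cb H b j = ∑ m, (G * H) l m • b m := by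
    have h2 : ∀ j, G l j • cb H b j = ∑ m, (G l j * H j m) • b m := by
      intro j
      unfold cb
      rw [Finset.smul_sum]
      exact Finset.sum_congr rfl fun m _ => by rw [smul_smul]
    rw [Finset.sum_congr rfl fun i _ => h2 i, Finset.sum_comm]
    refine Finset.sum_congr rfl fun j _ => ?_
    rw [← Finset.sum_smul, Matrix.mul_apply]
  rw [h1, hGH, Finset.sum_eq_single l]
  · rw [Matrix.one_apply_eq, one_smul]
  · intro j _ hj
    rw [Matrix.one_apply_ne (Ne.symm hj), zero_smul]
  · intro h
    exact absurd (Finset.mem_univ _) h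

theorem mul_ca (G G' : Matrix (Fin N) (Fin N) ℂ) (i j : Fin N) (a b : Fin N → Module.End ℂ U) :
    ca G a i * ca G' b j = ∑ p, ∑ q, (G p i * G' q j) • (a p * b q) := by
  unfold ca
  rw [Finset.sum_mul]
  refine Finset.sum_congr rfl fun p _ => ?_
  rw [Finset.mul_sum]
  refine Finset.sum_congr rfl fun q _ => ?_
  rw [smul_mul_assoc, mul_smul_comm, smul_smul]

theorem cb_eq (H : Matrix (Fin N) (Fin N) ℂ) (b : Fin N → Module.End ℂ U) (i : Fin N) :
    cb H b i = ca H.transpose b i := rfl

theorem CAR.change (h : CAR a b) {G H : Matrix (Fin N) (Fin N) ℂ} (hHG : H * G = 1) :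
    CAR (ca G a) (cb H b) where
  aa i j := by
    rw [mul_ca, mul_ca, Finset.sum_comm, ← Finset.sum_neg_distrib]
    refine Finset.sum_congr rfl fun p _ => ?_
    rw [← Finset.sum_neg_distrib]
    refine Finset.sum_congr rfl fun q _ => ?_
    rw [h.aa q p, smul_neg, mul_comm]
  bb i j := by
    rw [cb_eq, cb_eq, mul_ca, mul_ca, Finset.sum_comm, ← Finset.sum_neg_distrib]
    refine Finset.sum_congr rfl fun p _ => ?_
    rw [← Finset.sum_neg_distrib]
    refine Finset.sum_congr rfl fun q _ => ?_
    rw [h.bb q p, smul_neg, mul_comm]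
  ab i j := by
    rw [cb_eq, mul_ca, mul_ca]
    rw [Finset.sum_comm (f := fun p q => (H.transpose p j * G q i) • (b p * a q)),
      ← Finset.sum_add_distrib]
    have h1 : ∀ p, (∑ q, (G p i * H.transpose q j) • (a p * b q)) +
        ∑ q, (H.transpose q j * G p i) • (b q * a p) = (H j p * G p i) • (1 : Module.End ℂ U) := by
      intro p
      rw [← Finset.sum_add_distrib, Finset.sum_eq_single p]
      · rw [mul_comm, ← smul_add, h.ab, if_pos rfl, Matrix.transpose_apply]
      · intro q _ hq
        rw [mul_comm, ← smul_add, h.ab, if_neg (Ne.symm hq), smul_zero]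
      · intro h
        exact absurd (Finset.mem_univ _) h
    rw [Finset.sum_congr rfl fun p _ => h1 p, ← Finset.sum_smul, ← Matrix.mul_apply, hHG]
    split_ifs with hij
    · rw [hij, Matrix.one_apply_eq, one_smul]
    · rw [Matrix.one_apply_ne (Ne.symm hij), zero_smul]

/-- products of old operators in terms of new ones -/
theorem gij_change {G H : Matrix (Fin N) (Fin N) ℂ} (hGH : G * H = 1) (p q : Fin N) :
    gij a b p q = ∑ i, ∑ j, (H i p * G q j) • gij (ca G a) (cb H b) i j := by
  have h1 : a p * b q = ∑ i, ∑ j, (H i p * G q j) • (ca G a i * cb H b j) := by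
    conv_lhs => rw [ca_ca hGH a p, cb_cb hGH b q]
    rw [Finset.sum_mul]
    refine Finset.sum_congr rfl fun i _ => ?_
    rw [Finset.mul_sum]
    refine Finset.sum_congr rfl fun j _ => ?_
    rw [smul_mul_assoc, mul_smul_comm, smul_smul]
  have h2 : (if p = q then (2⁻¹ : ℂ) • (1 : Module.End ℂ U) else 0) =
      ∑ i, ∑ j, (H i p * G q j) • (if i = j then (2⁻¹ : ℂ) • (1 : Module.End ℂ U) else 0) := by
    have h3 : ∀ i, ∑ j, (H i p * G q j) • (if i = j then (2⁻¹ : ℂ) • (1 : Module.End ℂ U) else 0) =
        (G q i * H i p) • (2⁻¹ : ℂ) • (1 : Module.End ℂ U) := by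
      intro i
      rw [Finset.sum_eq_single i]
      · rw [if_pos rfl, mul_comm]
      · intro j _ hj
        rw [if_neg (Ne.symm hj), smul_zero]
      · intro h
        exact absurd (Finset.mem_univ _) h
    rw [Finset.sum_congr rfl fun i _ => h3 i, ← Finset.sum_smul, ← Matrix.mul_apply, hGH]
    split_ifs with hpq
    · rw [hpq, Matrix.one_apply_eq, one_smul]
    · rw [Matrix.one_apply_ne (Ne.symm hpq), zero_smul]
  unfold gij
  rw [h1, h2, ← Finset.sum_sub_distrib]
  refine Finset.sum_congr rfl fun i _ => ?_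
  rw [← Finset.sum_sub_distrib]
  refine Finset.sum_congr rfl fun j _ => ?_
  rw [← smul_sub]

theorem glC_change {G H : Matrix (Fin N) (Fin N) ℂ} (hGH : G * H = 1)
    (hG : ∀ i j, G i j ≠ 0 → c i = c j) (hH : ∀ i j, H i j ≠ 0 → c i = c j) :
    glC a b c ≤ glC (ca G a) (cb H b) c := by
  conv_lhs => unfold glC
  rw [Submodule.span_le]
  rintro _ ⟨p, q, hpq, rfl⟩
  rw [SetLike.mem_coe, gij_change hGH]
  refine Submodule.sum_mem _ fun i _ => Submodule.sum_mem _ fun j _ => ?_
  by_cases h0 : H i p * G q j = 0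
  · rw [h0, zero_smul]
    exact Submodule.zero_mem _
  · have h1 := hH i p (left_ne_zero_of_mul h0)
    have h2 := hG q j (right_ne_zero_of_mul h0)
    exact Submodule.smul_mem _ _ (Submodule.subset_span ⟨i, j, h1.trans (hpq.trans h2), rfl⟩)

end Change

end Pool.Agent.R912
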