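import Pool.Agent.H86.CMLib.R912.U12

set_option autoImplicit false
set_option linter.unusedSectionVars false

/-!
# Subalgebras of `⊕ gl` which generate the same algebra contain the derived algebra
-/

open Module

namespace Pool.Agent.R912

open Pool.Agent.Y102.SP

variable {U : Type} [AddCommGroup U] [Module ℂ U]
  {L 𝔥 : Submodule ℂ (Module.End ℂ U)}
  {N k : ℕ} {a b : Fin N → Module.End ℂ U} {c : Fin N → Fin k}

section

variable (h : CAR a b)
include h

theorem CAR.br_ga (p q j : Fin N) :
    gij a b p q * a j - a j * gij a b p q = if j = q then a p else 0 := by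
  unfold gij
  have h2 : (if p = q then (2⁻¹ : ℂ) • (1 : Module.End ℂ U) else 0) * a j =
      a j * (if p = q then (2⁻¹ : ℂ) • (1 : Module.End ℂ U) else 0) := by
    split_ifs
    · rw [smul_mul_assoc, mul_smul_comm, one_mul, mul_one]
    · rw [zero_mul, mul_zero]
  rw [sub_mul, mul_sub, h2]
  have h3 : a p * b q * a j - a j * (a p * b q) = a p * (a j * b q + b q * a j) := by
    have h4 : a p * (a j * b q) = -(a j * (a p * b q)) := by
      rw [← mul_assoc, h.aa p j, neg_mul, mul_assoc]
    rw [mul_add, h4, mul_assoc]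
    abel
  have h5 : a p * b q * a j - a j * (if p = q then (2⁻¹ : ℂ) • (1 : Module.End ℂ U) else 0) -
      (a j * (a p * b q) - a j * (if p = q then (2⁻¹ : ℂ) • (1 : Module.End ℂ U) else 0)) =
      a p * b q * a j - a j * (a p * b q) := by abel
  rw [h5, h3, h.ab j q]
  split_ifs
  · rw [mul_one]
  · rw [mul_zero]

theorem CAR.br_gb (p q j : Fin N) :
    gij a b p q * b j - b j * gij a b p q = if p = j then -b q else 0 := by
  unfold gij
  have h2 : (if p = q then (2⁻¹ : ℂ) • (1 : Module.End ℂ U) else 0) * b j =
      b j * (if p = q then (2⁻¹ : ℂ) • (1 : Module.End ℂ U) else 0) := by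
    split_ifs
    · rw [smul_mul_assoc, mul_smul_comm, one_mul, mul_one]
    · rw [zero_mul, mul_zero]
  rw [sub_mul, mul_sub, h2]
  have h3 : a p * b q * b j - b j * (a p * b q) = -((a p * b j + b j * a p) * b q) := by
    rw [mul_assoc, h.bb q j, add_mul]
    noncomm_ring
  have h5 : a p * b q * b j - b j * (if p = q then (2⁻¹ : ℂ) • (1 : Module.End ℂ U) else 0) -
      (b j * (a p * b q) - b j * (if p = q then (2⁻¹ : ℂ) • (1 : Module.End ℂ U) else 0)) =
      a p * b q * b j - b j * (a p * b q) := by abel
  rw [h5, h3, h.ab p j]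
  split_ifs
  · rw [one_mul]
  · rw [zero_mul, neg_zero]

theorem CAR.br_gg (i j l m : Fin N) :
    gij a b i j * gij a b l m - gij a b l m * gij a b i j =
      (if l = j then a i * b m else 0) - (if i = m then a l * b j else 0) := by
  have h1 : gij a b i j * gij a b l m - gij a b l m * gij a b i j =
      gij a b i j * (a l * b m) - (a l * b m) * gij a b i j := by
    have h2 : gij a b l m = a l * b m - if l = m then (2⁻¹ : ℂ) • 1 else 0 := rfl
    rw [h2, mul_sub, sub_mul]
    have h3 : gij a b i j * (if l = m then (2⁻¹ : ℂ) • (1 : Module.End ℂ U) else 0) =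
        (if l = m then (2⁻¹ : ℂ) • (1 : Module.End ℂ U) else 0) * gij a b i j := by
      split_ifs
      · rw [smul_mul_assoc, mul_smul_comm, one_mul, mul_one]
      · rw [zero_mul, mul_zero]
    rw [h3]
    abel
  rw [h1]
  have h4 : gij a b i j * (a l * b m) - (a l * b m) * gij a b i j =
      (gij a b i j * a l - a l * gij a b i j) * b m +
        a l * (gij a b i j * b m - b m * gij a b i j) := by
    noncomm_ring
  rw [h4, h.br_ga, h.br_gb, ite_mul, mul_ite, zero_mul, mul_zero, mul_neg, sub_eq_add_neg]
  congr 1
  split_ifs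
  · rfl
  · rw [neg_zero]

theorem CAR.br_a {y : Module.End ℂ U} (hy : y ∈ glC a b c) (j : Fin N) :
    y * a j - a j * y ∈ Submodule.span ℂ (Set.range a) := by
  induction hy using Submodule.span_induction with
  | mem y hy =>
    obtain ⟨p, q, -, rfl⟩ := hy
    rw [h.br_ga]
    split_ifs
    · exact Submodule.subset_span ⟨p, rfl⟩
    · exact Submodule.zero_mem _
  | zero => rw [zero_mul, mul_zero, sub_zero]; exact Submodule.zero_mem _
  | add y z _ _ hy hz =>
    have h1 : (y + z) * a j - a j * (y + z) = (y * a j - a j * y) + (z * a j - a j * z) := by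
      rw [add_mul, mul_add]; abel
    rw [h1]
    exact Submodule.add_mem _ hy hz
  | smul r y _ hy =>
    rw [smul_mul_assoc, mul_smul_comm, ← smul_sub]
    exact Submodule.smul_mem _ _ hy

theorem CAR.br_b {y : Module.End ℂ U} (hy : y ∈ glC a b c) (j : Fin N) :
    y * b j - b j * y ∈ Submodule.span ℂ (Set.range b) := by
  induction hy using Submodule.span_induction with
  | mem y hy =>
    obtain ⟨p, q, -, rfl⟩ := hy
    rw [h.br_gb]
    split_ifs
    · exact Submodule.neg_mem _ (Submodule.subset_span ⟨q, rfl⟩)
    · exact Submodule.zero_mem _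
  | zero => rw [zero_mul, mul_zero, sub_zero]; exact Submodule.zero_mem _
  | add y z _ _ hy hz =>
    have h1 : (y + z) * b j - b j * (y + z) = (y * b j - b j * y) + (z * b j - b j * z) := by
      rw [add_mul, mul_add]; abel
    rw [h1]
    exact Submodule.add_mem _ hy hz
  | smul r y _ hy =>
    rw [smul_mul_assoc, mul_smul_comm, ← smul_sub]
    exact Submodule.smul_mem _ _ hy

/-- Combinations of creation operators are determined by the value at the vacuum. -/
theorem CAR.a_ext {ω : U} (hω : St a b ∅ ω) (hω0 : ω ≠ 0) {D : Module.End ℂ U}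
    (hD : D ∈ Submodule.span ℂ (Set.range a)) (h0 : D ω = 0) : D = 0 := by
  obtain ⟨t, rfl⟩ := (Submodule.mem_span_range_iff_exists_fun ℂ).1 hD
  refine Finset.sum_eq_zero fun j _ => ?_
  have h1 : b j ((∑ i, t i • a i) ω) = t j • ω := by
    rw [LinearMap.sum_apply, map_sum, Finset.sum_eq_single j]
    · rw [LinearMap.smul_apply, map_smul, h.baω hω, if_pos rfl]
    · intro i _ hi
      rw [LinearMap.smul_apply, map_smul, h.baω hω, if_neg (Ne.symm hi), smul_zero]
    · intro h2
      exact absurd (Finset.mem_univ _) h2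
  rw [h0, map_zero] at h1
  rw [(smul_eq_zero.1 h1.symm).resolve_right hω0, zero_smul]

/-- Combinations of annihilation operators which anticommute with the creation operators. -/
theorem CAR.b_ext [Nontrivial U] {D : Module.End ℂ U} (hD : D ∈ Submodule.span ℂ (Set.range b))
    (h0 : ∀ l, D * a l + a l * D = 0) : D = 0 := by
  obtain ⟨t, rfl⟩ := (Submodule.mem_span_range_iff_exists_fun ℂ).1 hD
  refine Finset.sum_eq_zero fun j _ => ?_
  have h1 : (∑ i, t i • b i) * a j + a j * (∑ i, t i • b i) = t j • (1 : Module.End ℂ U) := by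
    rw [Finset.sum_mul, Finset.mul_sum, ← Finset.sum_add_distrib, Finset.sum_eq_single j]
    · rw [smul_mul_assoc, mul_smul_comm, ← smul_add, add_comm, h.ab, if_pos rfl]
    · intro i _ hi
      rw [smul_mul_assoc, mul_smul_comm, ← smul_add, add_comm, h.ab, if_neg (Ne.symm hi), smul_zero]
    · intro h2
      exact absurd (Finset.mem_univ _) h2
  rw [h0] at h1
  rw [(smul_eq_zero.1 h1.symm).resolve_right one_ne_zero, zero_smul]

/-- The brackets of the generators. -/
theorem glC_comm (h1 : ∀ p q, c p = c q → p ≠ q → a p * b q ∈ L)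
    (h2 : ∀ p q, c p = c q → a p * b p - a q * b q ∈ L) {X Y : Module.End ℂ U}
    (hX : X ∈ glC a b c) (hY : Y ∈ glC a b c) : X * Y - Y * X ∈ L := by
  induction hX using Submodule.span_induction with
  | mem X hX =>
    obtain ⟨i, j, hij, rfl⟩ := hX
    induction hY using Submodule.span_induction with
    | mem Y hY =>
      obtain ⟨l, m, hlm, rfl⟩ := hY
      rw [h.br_gg]
      by_cases e1 : l = j
      · subst e1
        by_cases e2 : i = m
        · subst e2
          rw [if_pos rfl, if_pos rfl]
          exact h2 i l hij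
        · rw [if_pos rfl, if_neg e2, sub_zero]
          exact h1 i m (hij.trans hlm) e2
      · rw [if_neg e1, zero_sub]
        refine L.neg_mem ?_
        split_ifs with e2
        · subst e2
          exact h1 l j (hlm.trans hij) e1
        · exact L.zero_mem
    | zero => rw [zero_mul, mul_zero, sub_zero]; exact L.zero_mem
    | add Y Z _ _ hY hZ =>
      have h3 : gij a b i j * (Y + Z) - (Y + Z) * gij a b i j =
          (gij a b i j * Y - Y * gij a b i j) + (gij a b i j * Z - Z * gij a b i j) := by
        rw [add_mul, mul_add]; abel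
      rw [h3]
      exact L.add_mem hY hZ
    | smul r Y _ hY =>
      rw [smul_mul_assoc, mul_smul_comm, ← smul_sub]
      exact L.smul_mem _ hY
  | zero => rw [zero_mul, mul_zero, sub_zero]; exact L.zero_mem
  | add X Z _ _ hX hZ =>
    have h3 : (X + Z) * Y - Y * (X + Z) = (X * Y - Y * X) + (Z * Y - Y * Z) := by
      rw [add_mul, mul_add]; abel
    rw [h3]
    exact L.add_mem hX hZ
  | smul r X _ hX =>
    rw [smul_mul_assoc, mul_smul_comm, ← smul_sub]
    exact L.smul_mem _ hX

theorem CAR.diag_mem (hbr : ∀ X ∈ L, ∀ Y ∈ L, X * Y - Y * X ∈ L)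
    (h1 : ∀ p q, c p = c q → p ≠ q → a p * b q ∈ L) (p q : Fin N) (hc : c p = c q) :
    a p * b p - a q * b q ∈ L := by
  by_cases hpq : p = q
  · rw [hpq, sub_self]
    exact L.zero_mem
  · have h2 := hbr _ (h1 p q hc hpq) _ (h1 q p hc.symm (Ne.symm hpq))
    have h3 := h.br_gg p q q p
    rw [if_pos rfl, if_pos rfl] at h3
    have h4 : gij a b p q = a p * b q := by
      unfold gij
      rw [if_neg hpq, sub_zero]
    have h5 : gij a b q p = a q * b p := by
      unfold gij
      rw [if_neg (Ne.symm hpq), sub_zero]
    rw [h4, h5] at h3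
    rw [h3] at h2
    exact h2

end

/-- combinations with trace zero -/
theorem trace_zero_mem {A B : Fin N → Module.End ℂ U}
    (h1 : ∀ p q, c p = c q → p ≠ q → A p * B q ∈ L)
    (h2 : ∀ p q, c p = c q → A p * B p - A q * B q ∈ L) {C : Fin N → Fin N → ℂ} {p : Fin N}
    (hC : ∀ i j, C i j ≠ 0 → c i = c p ∧ c j = c p) (hC0 : ∑ i, C i i = 0) :
    ∑ i, ∑ j, C i j • gij A B i j ∈ L := by
  have h3 : ∑ i, ∑ j, C i j • gij A B i j =
      ∑ i, ∑ j, C i j • (gij A B i j - if i = j then gij A B p p else 0) := by
    have h4 : ∑ i, ∑ j, C i j • (if i = j then gij A B p p else 0) = 0 := by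
      have h5 : ∀ i, ∑ j, C i j • (if i = j then gij A B p p else 0) = C i i • gij A B p p := by
        intro i
        rw [Finset.sum_eq_single i]
        · rw [if_pos rfl]
        · intro j _ hj
          rw [if_neg (Ne.symm hj), smul_zero]
        · intro h2
          exact absurd (Finset.mem_univ _) h2
      rw [Finset.sum_congr rfl fun i _ => h5 i, ← Finset.sum_smul, hC0, zero_smul]
    have h6 : ∑ i, ∑ j, C i j • (gij A B i j - if i = j then gij A B p p else 0) =
        ∑ i, ∑ j, C i j • gij A B i j -
          ∑ i, ∑ j, C i j • (if i = j then gij A B p p else 0) := by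
      rw [← Finset.sum_sub_distrib]
      refine Finset.sum_congr rfl fun i _ => ?_
      rw [← Finset.sum_sub_distrib]
      exact Finset.sum_congr rfl fun j _ => smul_sub _ _ _
    rw [h6, h4, sub_zero]
  rw [h3]
  refine Submodule.sum_mem _ fun i _ => Submodule.sum_mem _ fun j _ => ?_
  by_cases h0 : C i j = 0
  · rw [h0, zero_smul]
    exact L.zero_mem
  · obtain ⟨e1, e2⟩ := hC i j h0
    refine L.smul_mem _ ?_
    unfold gij
    by_cases hij : i = j
    · subst hij
      rw [if_pos rfl, if_pos rfl, if_pos rfl]
      have h6 : A i * B i - (2⁻¹ : ℂ) • 1 - (A p * B p - (2⁻¹ : ℂ) • 1) =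
          A i * B i - A p * B p := by abel
      rw [h6]
      exact h2 i p e1
    · rw [if_neg hij, if_neg hij, sub_zero, sub_zero]
      exact h1 i j (e1.trans e2.symm) hij

variable [FiniteDimensional ℂ U] [Nontrivial U]

/-- **Theorem.** A subalgebra of `⊕ gl` which generates the same associative algebra contains the
derived algebra, if every colour is used an even number of times. -/
theorem Hyp.main (h : Hyp 𝔥 L a b c)
    (hev : ∀ i, Even (Finset.univ.filter fun j => c j = c i).card) {X Y : Module.End ℂ U}
    (hX : X ∈ glC a b c) (hY : Y ∈ glC a b c) : X * Y - Y * X ∈ L := by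
  obtain ⟨ω, hω0, hω⟩ := h.car.exists_vac
  obtain ⟨T, i1, i2, ⟨S⟩⟩ := h.exists_rs
  obtain ⟨G, H, hGH, hHG, hG, hH, hx⟩ := exists_GH S hω hω0 h
  choose x hx using hx
  have hcar := h.car.change (G := G) (H := H) hHG
  have hyω : ∀ t, S.ι t ω = 0 := fun t => h.Lω hω (S.ιmem t)
  have ax : ∀ i, ca G a i ∈ wsp S.ι (x i) := by
    intro i t
    rw [← sub_eq_zero]
    refine h.car.a_ext hω hω0 ?_ ?_
    · refine Submodule.sub_mem _ ?_ (Submodule.smul_mem _ _ ?_)
      · unfold ca
        rw [Finset.mul_sum, Finset.sum_mul, ← Finset.sum_sub_distrib]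
        refine Submodule.sum_mem _ fun j _ => ?_
        rw [smul_mul_assoc, mul_smul_comm, ← smul_sub]
        exact Submodule.smul_mem _ _ (h.car.br_a (h.le (h.Lle (S.ιmem t))) j)
      · unfold ca
        exact Submodule.sum_mem _ fun j _ =>
          Submodule.smul_mem _ _ (Submodule.subset_span ⟨j, rfl⟩)
    · rw [LinearMap.sub_apply, LinearMap.sub_apply, Module.End.mul_apply, Module.End.mul_apply,
        hyω, map_zero, sub_zero, LinearMap.smul_apply, hx i t, sub_self]
  have bx : ∀ i, cb H b i ∈ wsp S.ι (-x i) := by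
    intro i t
    rw [LinearMap.neg_apply, neg_smul, ← sub_eq_zero, sub_neg_eq_add]
    refine h.car.b_ext ?_ fun l => ?_
    · refine Submodule.add_mem _ ?_ (Submodule.smul_mem _ _ ?_)
      · unfold cb
        rw [Finset.mul_sum, Finset.sum_mul, ← Finset.sum_sub_distrib]
        refine Submodule.sum_mem _ fun j _ => ?_
        rw [smul_mul_assoc, mul_smul_comm, ← smul_sub]
        exact Submodule.smul_mem _ _ (h.car.br_b (h.le (h.Lle (S.ιmem t))) j)
      · unfold cb
        exact Submodule.sum_mem _ fun j _ =>
          Submodule.smul_mem _ _ (Submodule.subset_span ⟨j, rfl⟩)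
    · have key : ∀ j, (S.ι t * cb H b i - cb H b i * S.ι t + x i t • cb H b i) * ca G a j +
          ca G a j * (S.ι t * cb H b i - cb H b i * S.ι t + x i t • cb H b i) = 0 := by
        intro j
        have e1 : S.ι t * ca G a j = ca G a j * S.ι t + x j t • ca G a j := by
          rw [← ax j t]
          abel
        have e2 := hcar.ab j i
        have e3 : (S.ι t * cb H b i - cb H b i * S.ι t + x i t • cb H b i) * ca G a j +
            ca G a j * (S.ι t * cb H b i - cb H b i * S.ι t + x i t • cb H b i) =
            S.ι t * (ca G a j * cb H b i + cb H b i * ca G a j) -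
            (ca G a j * cb H b i + cb H b i * ca G a j) * S.ι t -
            (S.ι t * ca G a j - ca G a j * S.ι t) * cb H b i -
            cb H b i * (S.ι t * ca G a j - ca G a j * S.ι t) +
            x i t • (ca G a j * cb H b i + cb H b i * ca G a j) := by
          rw [add_mul, mul_add, smul_mul_assoc, mul_smul_comm, smul_add]
          noncomm_ring
        have e4 : S.ι t * ca G a j - ca G a j * S.ι t = x j t • ca G a j := ax j t
        rw [e3, e4, smul_mul_assoc, mul_smul_comm]
        have e5 : ∀ A B C D E : Module.End ℂ U, A - B - x j t • C - x j t • D + E =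
            A - B - x j t • (C + D) + E := fun A B C D E => by rw [smul_add]; abel
        rw [e5, e2]
        split_ifs with hji
        · rw [hji, mul_one, one_mul, sub_self, zero_sub]
          exact neg_add_cancel _
        · rw [mul_zero, zero_mul, smul_zero, smul_zero, sub_zero, sub_zero, add_zero]
      rw [ca_ca hGH a l, Finset.mul_sum, Finset.sum_mul, ← Finset.sum_add_distrib]
      refine Finset.sum_eq_zero fun j _ => ?_
      rw [mul_smul_comm, smul_mul_assoc, ← smul_add, key, smul_zero]
  have hUW : UW S 𝔥 (ca G a) (cb H b) c x :=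
    { car := hcar
      Lle := h.Lle
      le := h.le.trans (glC_change hGH hG hH)
      dec := h.dec
      gen := fun i j hij => by
        rw [cb_eq, mul_ca]
        refine Subalgebra.sum_mem _ fun p _ => Subalgebra.sum_mem _ fun q _ => ?_
        by_cases h0 : G p i * H.transpose q j = 0
        · rw [h0, zero_smul]
          exact Subalgebra.zero_mem _
        · refine Subalgebra.smul_mem _ (h.gen p q ?_) _
          exact (hG p i (left_ne_zero_of_mul h0)).trans (hij.trans
            (hH j q (right_ne_zero_of_mul h0)))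
      ax := ax
      bx := bx }
  have h1 : ∀ p q, c p = c q → p ≠ q → ca G a p * cb H b q ∈ L := fun p q hc hpq =>
    hUW.ab_mem hev hc hpq
  have h2 := hcar.diag_mem h.Lbr h1
  have h3 : ∀ p q, c p = c q → p ≠ q → a p * b q ∈ L := by
    intro p q hc hpq
    have h4 : a p * b q = gij a b p q := by
      unfold gij
      rw [if_neg hpq, sub_zero]
    rw [h4, gij_change hGH]
    refine trace_zero_mem h1 h2 (p := p) (fun i j h0 => ?_) ?_
    · exact ⟨hH i p (left_ne_zero_of_mul h0), (hG q j (right_ne_zero_of_mul h0)).symm.trans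
        hc.symm⟩
    · have h5 : ∑ i, H i p * G q i = (G * H) q p := by
        rw [Matrix.mul_apply]
        exact Finset.sum_congr rfl fun i _ => mul_comm _ _
      rw [h5, hGH, Matrix.one_apply_ne (Ne.symm hpq)]
  exact glC_comm h.car h3 (h.car.diag_mem h.Lbr h3) hX hY

end Pool.Agent.R912
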