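import Pool.Agent.H86.CMLib.R912.U5

set_option autoImplicit false
set_option linter.unusedSectionVars false

/-!
# Lines contain at most three weights; reflections of the weights
-/

open Module

namespace Pool.Agent.R912

open Pool.Agent.Y102.SP

variable {U : Type} [AddCommGroup U] [Module ℂ U] [FiniteDimensional ℂ U] [Nontrivial U]
  {T : Type} [AddCommGroup T] [Module ℂ T] {L 𝔥 : Submodule ℂ (Module.End ℂ U)}
  {N k : ℕ} {a b : Fin N → Module.End ℂ U} {c : Fin N → Fin k}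

/-- Words in the direction of a root. -/
theorem root_words {S : RS L T} {Fs : Set (Module.Dual ℂ T)} {β : Module.Dual ℂ T}
    (hβ : β ∈ S.R.Φ) {φ' ψ φ : Module.Dual ℂ T →ₗ[ℚ] ℚ}
    (hl : Lex S.R Fs (Submodule.span ℚ {β}) φ' ψ φ) (hpos : 0 < φ' β)
    {l : List (Module.Dual ℂ T)} (h1 : ∀ γ ∈ l, γ ∈ S.R.Φ ∧ φ γ < 0) (n : ℕ)
    (hs : l.sum = -((n : ℚ) • β)) (v : U) : S.gen v l = ((S.e (-β)) ^ n) v := by
  have hβP : β ∈ Submodule.span ℚ {β} := Submodule.mem_span_singleton_self β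
  have h2 := hl.word h1 (by rw [hs]; exact Submodule.neg_mem _ (Submodule.smul_mem _ _ hβP))
  have h3 : ∀ γ ∈ l, γ = -β := by
    intro γ hγ
    obtain ⟨s, hs⟩ := Submodule.mem_span_singleton.1 (h2 γ hγ)
    rcases S.R.red β hβ s (hs ▸ (h1 γ hγ).1) with h4 | h4
    · exfalso
      rw [h4, one_smul] at hs
      have h5 := (h1 γ hγ).2
      rw [← hs, hl.eqP hβP] at h5
      linarith
    · rw [← hs, h4, neg_one_smul]
  have h4 : l = List.replicate l.length (-β) := List.eq_replicate_iff.2 ⟨rfl, h3⟩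
  have h5 : l.length = n := by
    rw [h4, List.sum_replicate, ← Nat.cast_smul_eq_nsmul ℚ, smul_neg, neg_inj, ← sub_eq_zero,
      ← sub_smul] at hs
    rcases smul_eq_zero.1 hs with h6 | h6
    · have h7 : (l.length : ℚ) = n := sub_eq_zero.1 h6
      exact_mod_cast h7
    · exact absurd (h6 ▸ hβ) S.R.zero
  rw [h4, RS.gen_rep, h5]

namespace UW

variable {S : RS L T} {x : Fin N → Module.Dual ℂ T} (h : UW S 𝔥 a b c x)
include h

theorem oneword {β : Module.Dual ℂ T} (hβ : β ∈ S.R.Φ) {φ' ψ φ : Module.Dual ℂ T →ₗ[ℚ] ℚ}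
    (hl : Lex S.R (dif x) (Submodule.span ℚ {β}) φ' ψ φ) (hpos : 0 < φ' β) {F : Finset (Fin N)}
    (hF : ∀ q ∈ F, ∀ p, p ∉ F → c p = c q → φ (x p) ≤ φ (x q)) {v : U} (hv : St a b F v)
    (hv0 : v ≠ 0) {p q : Fin N} (hpq : c p = c q) (n : ℕ) (hx : x p - x q = -((n : ℚ) • β)) :
    ∃ s : ℂ, a p (b q v) = s • ((S.e (-β)) ^ n) v := by
  have hφ : ∀ α ∈ S.R.Φ, φ α ≠ 0 := hl.gen fun α hα hP => by
    obtain ⟨s, rfl⟩ := Submodule.mem_span_singleton.1 hP
    rw [map_smul, smul_eq_mul]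
    refine mul_ne_zero (fun h0 => ?_) hpos.ne'
    rw [h0, zero_smul] at hα
    exact S.R.zero hα
  have h1 := h.words hφ hF hv hv0 hpq
  have h2 : a p (b q v) ∈ Submodule.span ℂ {((S.e (-β)) ^ n) v} := by
    refine (Submodule.span_mono ?_) h1
    rintro _ ⟨l, h3, h4, rfl⟩
    exact root_words hβ hl hpos h3 n (h4.trans hx) v
  obtain ⟨s, hs⟩ := Submodule.mem_span_singleton.1 h2
  exact ⟨s, hs.symm⟩

/-- There are no four weights on a line. -/
theorem four {β : Module.Dual ℂ T} (hβ : β ∈ S.R.Φ) {i0 i1 i2 i3 : Fin N} (c1 : c i1 = c i0)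
    (c2 : c i2 = c i0) (c3 : c i3 = c i0) (h1 : x i1 = x i0 - β) (h2 : x i2 = x i1 - β)
    (h3 : x i3 = x i2 - β) : False := by
  classical
  have hβ0 : β ≠ 0 := fun h0 => S.R.zero (h0 ▸ hβ)
  obtain ⟨φ', hφ'⟩ := exists_pos hβ0
  obtain ⟨ψ, φ, hl⟩ := exists_lex S.R (dif_fin x) (Submodule.span ℚ {β}) φ'
  have hφβ : 0 < φ β := by rw [hl.eqP (Submodule.mem_span_singleton_self β)]; exact hφ'
  let F : Finset (Fin N) := Finset.univ.filter fun i => c i = c i0 ∧ φ (x i1) ≤ φ (x i)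
  have hF : ∀ i, i ∈ F ↔ c i = c i0 ∧ φ (x i1) ≤ φ (x i) := fun i => by simp [F]
  have e1 : φ (x i1) = φ (x i0) - φ β := by rw [h1, map_sub]
  have e2 : φ (x i2) = φ (x i1) - φ β := by rw [h2, map_sub]
  have e3 : φ (x i3) = φ (x i2) - φ β := by rw [h3, map_sub]
  have m0 : i0 ∈ F := (hF _).2 ⟨rfl, by linarith⟩
  have m1 : i1 ∈ F := (hF _).2 ⟨c1, le_rfl⟩
  have m2 : i2 ∉ F := fun hm => by linarith [((hF _).1 hm).2]
  have m3 : i3 ∉ F := fun hm => by linarith [((hF _).1 hm).2]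
  obtain ⟨v, hv0, hv⟩ := h.car.exists_state F
  have hcl : ∀ q ∈ F, ∀ p, p ∉ F → c p = c q → φ (x p) ≤ φ (x q) := fun q' hq' p' hp' h1 => by
    rw [hF] at hq' hp'
    have h3 : ¬ φ (x i1) ≤ φ (x p') := fun h3 => hp' ⟨h1.trans hq'.1, h3⟩
    exact (not_le.1 h3).le.trans hq'.2
  obtain ⟨s, hs⟩ := h.oneword hβ hl hφ' hcl hv hv0 c2 2 (by
    rw [h2, h1]; push_cast; rw [two_smul]; abel)
  obtain ⟨s', hs'⟩ := h.oneword hβ hl hφ' hcl hv hv0 (c3.trans c1.symm) 2 (by
    rw [h3, h2]; push_cast; rw [two_smul]; abel)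
  obtain ⟨h4, -⟩ := h.car.TT hv hv0 m0 m2 m1 m3 hs hs'
  rw [h4] at e3
  linarith

/-- A root is not a difference of weights for two colours. -/
theorem two_col {β : Module.Dual ℂ T} (hβ : β ∈ S.R.Φ) {p q p' q' : Fin N} (hc : c p = c q)
    (hc' : c p' = c q') (hx : x p - x q = β) (hx' : x p' - x q' = β) : c p = c p' := by
  classical
  by_contra hne
  have hβ0 : β ≠ 0 := fun h0 => S.R.zero (h0 ▸ hβ)
  obtain ⟨φ', hφ'⟩ := exists_pos hβ0
  obtain ⟨ψ, φ, hl⟩ := exists_lex S.R (dif_fin x) (Submodule.span ℚ {β}) φ'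
  have hφβ : 0 < φ β := by rw [hl.eqP (Submodule.mem_span_singleton_self β)]; exact hφ'
  let F : Finset (Fin N) := Finset.univ.filter fun i => (c i = c p ∧ φ (x p) ≤ φ (x i)) ∨
    (c i = c p' ∧ φ (x p') ≤ φ (x i))
  have hF : ∀ i, i ∈ F ↔ (c i = c p ∧ φ (x p) ≤ φ (x i)) ∨
    (c i = c p' ∧ φ (x p') ≤ φ (x i)) := fun i => by simp [F]
  have e1 : φ (x p) - φ (x q) = φ β := by rw [← hx, map_sub]
  have e2 : φ (x p') - φ (x q') = φ β := by rw [← hx', map_sub]
  have m0 : p ∈ F := (hF _).2 (Or.inl ⟨rfl, le_rfl⟩)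
  have m1 : p' ∈ F := (hF _).2 (Or.inr ⟨rfl, le_rfl⟩)
  have m2 : q ∉ F := fun hm => by
    rcases (hF _).1 hm with h1 | h1
    · linarith [h1.2]
    · exact hne (hc.trans h1.1)
  have m3 : q' ∉ F := fun hm => by
    rcases (hF _).1 hm with h1 | h1
    · exact hne (h1.1.symm.trans hc'.symm)
    · linarith [h1.2]
  obtain ⟨v, hv0, hv⟩ := h.car.exists_state F
  have hcl : ∀ q ∈ F, ∀ p, p ∉ F → c p = c q → φ (x p) ≤ φ (x q) := fun q1 hq1 p1 hp1 h1 => by
    rw [hF] at hq1 hp1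
    push Not at hp1
    rcases hq1 with h2 | h2
    · exact (hp1.1 (h1.trans h2.1)).le.trans h2.2
    · exact (hp1.2 (h1.trans h2.1)).le.trans h2.2
  obtain ⟨s, hs⟩ := h.oneword hβ hl hφ' hcl hv hv0 hc.symm 1 (by
    rw [Nat.cast_one, one_smul, ← hx]; abel)
  obtain ⟨s', hs'⟩ := h.oneword hβ hl hφ' hcl hv hv0 hc'.symm 1 (by
    rw [Nat.cast_one, one_smul, ← hx']; abel)
  obtain ⟨-, h4⟩ := h.car.TT hv hv0 m0 m2 m1 m3 hs hs'
  exact hne (by rw [h4])

/-- The differences of the weights of one colour. -/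
theorem line' {p q : Fin N} (hc : c p = c q) (hne : x p ≠ x q) : ∃ β ∈ S.R.Φ, x p = x q + β ∨
    (x p = x q + (2 : ℚ) • β ∧ ∃ i, c i = c p ∧ x i = x q + β) := by
  obtain ⟨β, hβ, n, hn, h1, h2⟩ := h.line _ hc hne le_rfl
  refine ⟨β, hβ, ?_⟩
  rcases Nat.lt_or_ge n 3 with h3 | h3
  · interval_cases n
    · left
      rw [h1, Nat.cast_one, one_smul]
    · right
      refine ⟨by rw [h1]; norm_num, ?_⟩
      obtain ⟨i, hi, hxi⟩ := h2 1 (by norm_num)
      exact ⟨i, hi, by rw [hxi, Nat.cast_one, one_smul]⟩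
  · exfalso
    obtain ⟨i0, c0, x0⟩ := h2 3 h3
    obtain ⟨i1, c1, x1⟩ := h2 2 (by omega)
    obtain ⟨i2, c2, x2⟩ := h2 1 (by omega)
    obtain ⟨i3, c3, x3⟩ := h2 0 (by omega)
    refine h.four hβ (c1.trans c0.symm) (c2.trans c0.symm) (c3.trans c0.symm) ?_ ?_ ?_
    · rw [x1, x0, add_sub_assoc]
      congr 1
      push_cast
      have : (3 : ℚ) • β = (2 : ℚ) • β + β := by
        rw [show (3 : ℚ) = 2 + 1 by norm_num, add_smul, one_smul]
      rw [this]
      abel
    · rw [x2, x1, add_sub_assoc]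
      congr 1
      push_cast
      rw [two_smul, one_smul]
      abel
    · rw [x3, x2]
      push_cast
      rw [zero_smul, one_smul]
      abel

theorem a_ne (i : Fin N) : a i ≠ 0 := by
  intro h0
  have h1 := h.car.ab i i
  rw [h0, zero_mul, mul_zero, add_zero, if_pos rfl] at h1
  exact one_ne_zero h1.symm

/-- The reflections permute the weights of one colour. -/
theorem refl {γ : Module.Dual ℂ T} (hγ : γ ∈ S.R.Φ) (i : Fin N) :
    ∃ j, c j = c i ∧ x j = x i - S.R.pr γ (x i) • γ := by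
  classical
  let V : Submodule ℂ (Module.End ℂ U) := Submodule.span ℂ {y | ∃ j, c j = c i ∧ y = a j}
  have hV0 : ∀ y ∈ glC a b c, ∀ v ∈ V, y * v - v * y ∈ V := by
    intro y hy v hv
    induction hy using Submodule.span_induction with
    | mem y hy =>
      obtain ⟨p, q, hpq, rfl⟩ := hy
      induction hv using Submodule.span_induction with
      | mem v hv =>
        obtain ⟨j, hj, rfl⟩ := hv
        have h1 : gij a b p q * a j - a j * gij a b p q = if j = q then a p else 0 := by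
          unfold gij
          have h2 : (if p = q then (2⁻¹ : ℂ) • (1 : Module.End ℂ U) else 0) * a j =
              a j * (if p = q then (2⁻¹ : ℂ) • (1 : Module.End ℂ U) else 0) := by
            split_ifs
            · rw [smul_mul_assoc, mul_smul_comm, one_mul, mul_one]
            · rw [zero_mul, mul_zero]
          rw [sub_mul, mul_sub, h2]
          have h3 : a p * b q * a j - a j * (a p * b q) = a p * (a j * b q + b q * a j) := by
            have h4 : a p * (a j * b q) = -(a j * (a p * b q)) := by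
              rw [← mul_assoc, h.car.aa p j, neg_mul, mul_assoc]
            rw [mul_add, h4, mul_assoc]
            abel
          have h5 : a p * b q * a j - a j * (if p = q then (2⁻¹ : ℂ) • (1 : Module.End ℂ U) else 0) -
              (a j * (a p * b q) - a j * (if p = q then (2⁻¹ : ℂ) • (1 : Module.End ℂ U) else 0)) =
              a p * b q * a j - a j * (a p * b q) := by abel
          rw [h5, h3, h.car.ab j q]
          split_ifs
          · rw [mul_one]
          · rw [mul_zero]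
        rw [h1]
        split_ifs with hjq
        · exact Submodule.subset_span ⟨p, by rw [hpq, ← hjq, hj], rfl⟩
        · exact Submodule.zero_mem _
      | zero => rw [mul_zero, zero_mul, sub_zero]; exact Submodule.zero_mem _
      | add u v _ _ hu hv =>
        have h1 : gij a b p q * (u + v) - (u + v) * gij a b p q =
            (gij a b p q * u - u * gij a b p q) + (gij a b p q * v - v * gij a b p q) := by
          rw [mul_add, add_mul]; abel
        rw [h1]
        exact Submodule.add_mem _ hu hv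
      | smul t v _ hv =>
        have h1 : gij a b p q * (t • v) - (t • v) * gij a b p q =
            t • (gij a b p q * v - v * gij a b p q) := by
          rw [mul_smul_comm, smul_mul_assoc, smul_sub]
        rw [h1]
        exact Submodule.smul_mem _ _ hv
    | zero => rw [mul_zero, zero_mul, sub_zero]; exact Submodule.zero_mem _
    | add y z _ _ hy hz =>
      have h1 : (y + z) * v - v * (y + z) = (y * v - v * y) + (z * v - v * z) := by
        rw [mul_add, add_mul]; abel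
      rw [h1]
      exact Submodule.add_mem _ hy hz
    | smul t y _ hy =>
      have h1 : (t • y) * v - v * (t • y) = t • (y * v - v * y) := by
        rw [mul_smul_comm, smul_mul_assoc, smul_sub]
      rw [h1]
      exact Submodule.smul_mem _ _ hy
  obtain ⟨y, hy, hy0⟩ := S.rfl' (V := V) (fun z hz => hV0 z (h.le (h.Lle hz))) hγ
    (x := a i) (ω := x i) ⟨Submodule.subset_span ⟨i, rfl, rfl⟩, h.ax i⟩ (h.a_ne i)
  by_contra hcon
  push Not at hcon
  apply hy0
  have h1 : V ≤ ⨆ ψ, ⨆ (_ : ψ ≠ x i - S.R.pr γ (x i) • γ), wsp S.ι ψ := by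
    refine Submodule.span_le.2 ?_
    rintro _ ⟨j, hj, rfl⟩
    have h2 : wsp S.ι (x j) ≤ ⨆ ψ, ⨆ (_ : ψ ≠ x i - S.R.pr γ (x i) • γ), wsp S.ι ψ :=
      le_iSup₂_of_le (x j) (hcon j hj) le_rfl
    exact h2 (h.ax j)
  exact (Submodule.mem_bot ℂ).1 ((S.wsp_indep _).le_bot ⟨hy.2, h1 hy.1⟩)

theorem int' {γ : Module.Dual ℂ T} (hγ : γ ∈ S.R.Φ) (i : Fin N) : ∃ n : ℤ, S.R.pr γ (x i) = n :=
  (S.wint hγ (h.ax i) (h.a_ne i)).1

end UW

end Pool.Agent.R912
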