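import Pool.Agent.H86.CMLib.R912.U6

set_option autoImplicit false
set_option linter.unusedSectionVars false

/-!
# Three weights on a line: the set of the weights is symmetric
-/

open Module

namespace Pool.Agent.R912

open Pool.Agent.Y102.SP

variable {U : Type} [AddCommGroup U] [Module ℂ U] [FiniteDimensional ℂ U] [Nontrivial U]
  {T : Type} [AddCommGroup T] [Module ℂ T] {L 𝔥 : Submodule ℂ (Module.End ℂ U)}
  {N k : ℕ} {a b : Fin N → Module.End ℂ U} {c : Fin N → Fin k}

namespace UW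

variable {S : RS L T} {x : Fin N → Module.Dual ℂ T} (h : UW S 𝔥 a b c x)
include h

theorem spread {δ : Module.Dual ℂ T} (hδ : δ ∈ S.R.Φ) {i j : Fin N} (hc : c i = c j) {m : ℚ}
    (hx : x i = x j + m • δ) : -2 ≤ m ∧ m ≤ 2 := by
  have hδ0 : δ ≠ 0 := fun h0 => S.R.zero (h0 ▸ hδ)
  by_cases hne : x i = x j
  · have h1 : m • δ = 0 := by
      have h2 : x i - x j = m • δ := by rw [hx]; abel
      rw [← h2, hne, sub_self]
    rcases smul_eq_zero.1 h1 with h2 | h2
    · rw [h2]; norm_num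
    · exact absurd h2 hδ0
  · obtain ⟨β, hβ, h1⟩ := h.line' hc hne
    rcases h1 with h1 | ⟨h1, -⟩
    · have h2 : β = m • δ := add_left_cancel (h1.symm.trans hx)
      rcases S.R.red δ hδ m (h2 ▸ hβ) with h3 | h3 <;> rw [h3] <;> norm_num
    · have h2 : (2 : ℚ) • β = m • δ := add_left_cancel (h1.symm.trans hx)
      have h3 : β = (m / 2) • δ := by
        have h4 : β = (1 / 2 : ℚ) • ((2 : ℚ) • β) := by
          rw [smul_smul]; norm_num
        rw [h4, h2, smul_smul]
        congr 1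
        ring
      rcases S.R.red δ hδ (m / 2) (h3 ▸ hβ) with h4 | h4
      · have : m = 2 := by linarith
        rw [this]; norm_num
      · have : m = -2 := by linarith
        rw [this]; norm_num

theorem pr_mid {β : Module.Dual ℂ T} (hβ : β ∈ S.R.Φ) {i0 i1 i2 : Fin N} (c0 : c i0 = c i1)
    (c2 : c i2 = c i1) (h0 : x i0 = x i1 + β) (h2 : x i2 = x i1 - β) :
    S.R.pr β (x i1) = 0 := by
  obtain ⟨j0, d0, y0⟩ := h.refl hβ i0
  obtain ⟨j2, d2, y2⟩ := h.refl hβ i2
  have e0 := (h.spread hβ d0 (m := -S.R.pr β (x i0)) (by rw [y0, neg_smul, sub_eq_add_neg])).1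
  have e2 := (h.spread hβ d2 (m := -S.R.pr β (x i2)) (by rw [y2, neg_smul, sub_eq_add_neg])).2
  rw [h0, map_add, S.R.two β hβ] at e0
  rw [h2, map_sub, S.R.two β hβ] at e2
  linarith

/-- Two weights with different norms. -/
theorem norm_lt {i j : Fin N} (hc : c i = c j) (hn : rB S.R (x j) (x j) < rB S.R (x i) (x i)) :
    ∃ δ ∈ S.R.Φ, x i = x j + δ ∧ S.R.pr δ (x j) = 0 := by
  have hne : x i ≠ x j := by
    intro h0
    rw [h0] at hn
    exact lt_irrefl _ hn
  obtain ⟨δ, hδ, h1⟩ := h.line' hc hne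
  have hpos := rB_pos hδ
  obtain ⟨P, hP⟩ := h.int' hδ j
  have hroot := rB_root S.cor hδ (x j)
  obtain ⟨i', hci', hxi'⟩ := h.refl hδ i
  have hsp := (h.spread hδ hci' (m := -S.R.pr δ (x i))
    (by rw [hxi', neg_smul, sub_eq_add_neg])).1
  rcases h1 with h1 | ⟨h1, -⟩
  · refine ⟨δ, hδ, h1, ?_⟩
    have h2 : rB S.R (x i) (x i) = rB S.R (x j) (x j) + S.R.pr δ (x j) * rB S.R δ δ +
        rB S.R δ δ := by
      rw [h1, rB_add, rB_add', rB_add', rB_symm δ (x j), ← hroot]
      ring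
    rw [h1, map_add, S.R.two δ hδ] at hsp
    have h3 : 0 < (S.R.pr δ (x j) + 1) * rB S.R δ δ := by linarith
    have h4 : 0 < S.R.pr δ (x j) + 1 := by
      by_contra h5
      have := mul_nonpos_of_nonpos_of_nonneg (not_lt.1 h5) hpos.le
      linarith
    rw [hP] at h4 hsp ⊢
    have h5 : (-1 : ℤ) < P := by
      have : ((-1 : ℤ) : ℚ) < P := by push_cast; linarith
      exact_mod_cast this
    have h6 : P ≤ 0 := by
      have : (P : ℚ) ≤ ((0 : ℤ) : ℚ) := by push_cast; linarith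
      exact_mod_cast this
    have h7 : P = 0 := by omega
    rw [h7, Int.cast_zero]
  · exfalso
    have h2 : rB S.R (x i) (x i) = rB S.R (x j) (x j) + 2 * (S.R.pr δ (x j) * rB S.R δ δ) +
        4 * rB S.R δ δ := by
      rw [h1, rB_add, rB_add', rB_add', rB_smul, rB_smul', rB_smul', rB_symm δ (x j), ← hroot]
      ring_nf
      rw [rB_smul]
      ring
    rw [h1, map_add, map_smul, S.R.two δ hδ, smul_eq_mul] at hsp
    have h3 : 0 < (2 * S.R.pr δ (x j) + 4) * rB S.R δ δ := by linarith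
    have h4 : 0 < 2 * S.R.pr δ (x j) + 4 := by
      by_contra h5
      have := mul_nonpos_of_nonpos_of_nonneg (not_lt.1 h5) hpos.le
      linarith
    linarith

/-- The middle weight is orthogonal to the roots. -/
theorem pr_mid' {β : Module.Dual ℂ T} (hβ : β ∈ S.R.Φ) {i0 i1 i2 : Fin N} (c0 : c i0 = c i1)
    (c2 : c i2 = c i1) (h0 : x i0 = x i1 + β) (h2 : x i2 = x i1 - β) {γ : Module.Dual ℂ T}
    (hγ : γ ∈ S.R.Φ) : S.R.pr γ (x i1) = 0 := by
  by_contra hp
  obtain ⟨iz, cz, hz⟩ := h.refl hγ i1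
  have hz' : x iz = rs S.R γ (x i1) := hz
  have hβ0 : rB S.R (x i1) β = 0 := by
    have := rB_root S.cor hβ (x i1)
    rw [h.pr_mid hβ c0 c2 h0 h2, zero_mul] at this
    linarith
  have hn : rB S.R (x iz) (x iz) = rB S.R (x i1) (x i1) := by
    rw [hz', rB_rs S.cor hγ]
  have hpos := rB_pos hβ
  have n0 : rB S.R (x iz) (x iz) < rB S.R (x i0) (x i0) := by
    rw [hn, h0, rB_add, rB_add', rB_add', rB_symm β (x i1), hβ0]
    linarith
  have n2 : rB S.R (x iz) (x iz) < rB S.R (x i2) (x i2) := by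
    rw [hn, h2, sub_eq_add_neg, rB_add, rB_add', rB_add', rB_neg, rB_neg, rB_symm β (-β), rB_neg,
      rB_symm (x i1) (-β), rB_neg, rB_symm β (x i1), hβ0]
    linarith
  obtain ⟨δ, hδ, e1, e2⟩ := h.norm_lt (c0.trans cz.symm) n0
  obtain ⟨δ', hδ', e3, e4⟩ := h.norm_lt (c2.trans cz.symm) n2
  have f1 : rB S.R (x iz) δ = 0 := by
    have := rB_root S.cor hδ (x iz)
    rw [e2, zero_mul] at this
    linarith
  have f2 : rB S.R (x iz) δ' = 0 := by
    have := rB_root S.cor hδ' (x iz)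
    rw [e4, zero_mul] at this
    linarith
  have f3 : δ + δ' = (2 * S.R.pr γ (x i1)) • γ := by
    have h3 : δ = x i0 - x iz := by rw [e1]; abel
    have h4 : δ' = x i2 - x iz := by rw [e3]; abel
    rw [h3, h4, h0, h2, hz, mul_smul, two_smul]
    abel
  have f4 : rB S.R (x iz) ((2 * S.R.pr γ (x i1)) • γ) = 0 := by
    rw [← f3, rB_add', f1, f2, add_zero]
  rw [rB_smul'] at f4
  have f5 : rB S.R (x iz) γ = 0 := by
    rcases mul_eq_zero.1 f4 with f5 | f5
    · exact absurd (by linarith) hp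
    · exact f5
  have f6 := rB_root S.cor hγ (x iz)
  rw [f5, mul_zero] at f6
  have f7 : S.R.pr γ (x iz) = 0 := by
    rcases mul_eq_zero.1 f6.symm with f7 | f7
    · exact f7
    · exact absurd f7 (rB_pos hγ).ne'
  rw [hz, map_sub, map_smul, S.R.two γ hγ, smul_eq_mul] at f7
  exact hp (by linarith)

/-- The set of the weights is symmetric, and the number of the weights is odd. -/
theorem mid_odd {β : Module.Dual ℂ T} (hβ : β ∈ S.R.Φ) {i0 i1 i2 : Fin N} (c0 : c i0 = c i1)
    (c2 : c i2 = c i1) (h0 : x i0 = x i1 + β) (h2 : x i2 = x i1 - β) :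
    Odd (Finset.univ.filter fun i => c i = c i1).card := by
  classical
  have hsym : ∀ i, c i = c i1 → ∃ j, c j = c i1 ∧ x j = x i1 - (x i - x i1) := by
    intro i hi
    by_cases hne : x i = x i1
    · exact ⟨i1, rfl, by rw [hne, sub_self, sub_zero]⟩
    · obtain ⟨δ, hδ, h3⟩ := h.line' hi hne
      obtain ⟨j, hj, hxj⟩ := h.refl hδ i
      have h4 := h.pr_mid' hβ c0 c2 h0 h2 hδ
      refine ⟨j, hj.trans hi, ?_⟩
      rcases h3 with h3 | ⟨h3, -⟩
      · rw [hxj, h3, map_add, h4, S.R.two δ hδ, zero_add, two_smul]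
        abel
      · rw [hxj, h3, map_add, h4, map_smul, S.R.two δ hδ, zero_add, smul_eq_mul]
        have h5 : ((2 : ℚ) * 2) • δ = (2 : ℚ) • δ + (2 : ℚ) • δ := by
          rw [← add_smul]; norm_num
        rw [h5]
        abel
  choose g hg1 hg2 using hsym
  let C : Finset (Fin N) := Finset.univ.filter fun i => c i = c i1
  have hC : ∀ i, i ∈ C ↔ c i = c i1 := fun i => by simp [C]
  have hE : ∀ i, i ∈ C.erase i1 ↔ i ≠ i1 ∧ c i = c i1 := fun i => by
    rw [Finset.mem_erase, hC]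
  have hC1 : i1 ∈ C := (hC _).2 rfl
  have hprod : ∏ _i ∈ C.erase i1, (-1 : ℤ) = 1 := by
    refine Finset.prod_involution (fun i hi => g i ((hE i).1 hi).2) ?_ ?_ ?_ ?_
    · intro i hi
      norm_num
    · intro i hi _ hgi
      have h3 := hg2 i ((hE i).1 hi).2
      rw [hgi] at h3
      have h4 : (2 : ℚ) • (x i - x i1) = 0 := by
        rw [two_smul]
        nth_rw 1 [h3]
        abel
      rcases smul_eq_zero.1 h4 with h5 | h5
      · norm_num at h5
      · exact ((hE i).1 hi).1 (h.inj ((hE i).1 hi).2 (sub_eq_zero.1 h5))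
    · intro i hi
      rw [hE]
      refine ⟨fun hgi => ?_, hg1 _ _⟩
      have h3 := hg2 i ((hE i).1 hi).2
      rw [hgi] at h3
      have h5 : x i - x i1 = 0 := by
        have h6 : x i - x i1 = x i1 - (x i1 - (x i - x i1)) := by abel
        rw [h6, ← h3, sub_self]
      exact ((hE i).1 hi).1 (h.inj ((hE i).1 hi).2 (sub_eq_zero.1 h5))
    · intro i hi
      have h4 := hg2 i ((hE i).1 hi).2
      have h3 := hg2 (g i ((hE i).1 hi).2) (hg1 _ _)
      refine h.inj ((hg1 _ _).trans ((hE i).1 hi).2.symm) ?_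
      rw [h3, h4]
      abel
  rw [Finset.prod_const, neg_one_pow_eq_one_iff_even (by norm_num)] at hprod
  have h3 := Finset.card_erase_add_one hC1
  change Odd C.card
  rw [← h3]
  exact hprod.add_one

end UW

end Pool.Agent.R912
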