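import Pool.Agent.H86.CMLib.R912.U8

set_option autoImplicit false
set_option linter.unusedSectionVars false

/-!
# A root is the difference of weights in only one way
-/

open Module

namespace Pool.Agent.R912

open Pool.Agent.Y102.SP

variable {U : Type} [AddCommGroup U] [Module ℂ U] [FiniteDimensional ℂ U] [Nontrivial U]
  {T : Type} [AddCommGroup T] [Module ℂ T] {L 𝔥 : Submodule ℂ (Module.End ℂ U)}
  {N k : ℕ} {a b : Fin N → Module.End ℂ U} {c : Fin N → Fin k}

/-- Words of weight `-ε` in the plane of `β` and `ε`. -/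
theorem plane_words {S : RS L T} {Fs : Set (Module.Dual ℂ T)} {β ε : Module.Dual ℂ T}
    (hβ : β ∈ S.R.Φ) (hε : ε ∈ S.R.Φ) (hsum : ε + β ∈ S.R.Φ) (hd : ε - β ∈ S.R.Φ)
    (h1 : S.R.pr β ε = 0) (h2 : S.R.pr ε β = 0) {φ' ψ φ : Module.Dual ℂ T →ₗ[ℚ] ℚ}
    (hl : Lex S.R Fs (Submodule.span ℚ {β, ε}) φ' ψ φ)
    (hp : ∀ y ∈ S.R.Φ, 0 < S.R.pr ε y → 0 < φ' y)
    (he : ∀ y, S.R.pr ε y = 0 → φ' y = S.R.pr β y)
    {v : U} (hv : S.e (-β) v = 0) {l : List (Module.Dual ℂ T)}
    (hl1 : ∀ γ ∈ l, γ ∈ S.R.Φ ∧ φ γ < 0) (hs : l.sum = -ε) :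
    ∃ s : ℂ, S.gen v l = s • S.e (-ε) v := by
  have hβP : β ∈ Submodule.span ℚ {β, ε} := Submodule.subset_span (Or.inl rfl)
  have hεP : ε ∈ Submodule.span ℚ {β, ε} := Submodule.subset_span (Or.inr rfl)
  have hε0 : ε ≠ 0 := fun h0 => S.R.zero (h0 ▸ hε)
  have hβ0 : β ≠ 0 := fun h0 => S.R.zero (h0 ▸ hβ)
  have hP := hl.word hl1 (by rw [hs]; exact Submodule.neg_mem _ hεP)
  -- the values of pr ε
  have hC : ∀ γ ∈ l, S.R.pr ε γ ≤ 0 := by
    intro γ hγ
    by_contra hcon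
    have h3 := hp γ (hl1 γ hγ).1 (not_le.1 hcon)
    have h4 := (hl1 γ hγ).2
    rw [hl.eqP (hP γ hγ)] at h4
    linarith
  have hC0 : ∀ γ ∈ l, S.R.pr ε γ = 0 → γ = -β := by
    intro γ hγ h0
    obtain ⟨d, e, hde⟩ := Submodule.mem_span_pair.1 (hP γ hγ)
    have h3 : e = 0 := by
      rw [← hde, map_add, map_smul, map_smul, h2, S.R.two ε hε, smul_eq_mul, smul_eq_mul] at h0
      linarith
    rw [h3, zero_smul, add_zero] at hde
    rcases S.R.red β hβ d (hde ▸ (hl1 γ hγ).1) with h4 | h4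
    · exfalso
      rw [h4, one_smul] at hde
      have h5 := (hl1 γ hγ).2
      rw [hl.eqP (hP γ hγ), he γ h0, ← hde, S.R.two β hβ] at h5
      linarith
    · rw [← hde, h4, neg_one_smul]
  -- the first letter
  rcases List.eq_nil_or_concat l with h3 | ⟨l', γ, h3⟩
  · exfalso
    rw [h3, List.sum_nil] at hs
    exact hε0 (neg_eq_zero.1 hs.symm)
  rw [List.concat_eq_append] at h3
  have hγ : γ ∈ l := by rw [h3]; simp
  have hl' : ∀ δ ∈ l', δ ∈ l := fun δ hδ => by rw [h3]; simp [hδ]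
  have hgen : S.gen v l = (l'.map S.e).prod (S.e γ v) := by
    rw [h3]
    unfold RS.gen
    rw [List.map_append, List.prod_append, Module.End.mul_apply]
    simp
  have hsum' : l'.sum + γ = -ε := by
    rw [← hs, h3]
    simp
  by_cases hγ0 : S.R.pr ε γ = 0
  · rw [hC0 γ hγ hγ0] at hgen
    exact ⟨0, by rw [hgen, hv, map_zero, zero_smul]⟩
  have h4 : S.R.pr ε γ ≠ -1 := plane_int S.cor hβ hε hsum hd h1 h2 (hl1 γ hγ).1 (hP γ hγ)
  obtain ⟨C, hCi⟩ := S.R.int ε hε γ (hl1 γ hγ).1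
  have h5 : S.R.pr ε γ ≤ -2 := by
    have h6 := hC γ hγ
    rw [hCi] at hγ0 h4 h6 ⊢
    have h7 : C ≠ 0 := fun h0 => hγ0 (by rw [h0, Int.cast_zero])
    have h8 : C ≠ -1 := fun h0 => h4 (by rw [h0]; norm_num)
    have h9 : C ≤ 0 := by exact_mod_cast h6
    have h10 : C ≤ -2 := by omega
    exact_mod_cast h10
  obtain ⟨h6, h7⟩ := list_nonpos (S.R.pr ε) l' fun δ hδ => hC δ (hl' δ hδ)
  have h8 : S.R.pr ε l'.sum + S.R.pr ε γ = -2 := by
    rw [← map_add, hsum', map_neg, S.R.two ε hε]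
  have h9 : S.R.pr ε l'.sum = 0 := by linarith
  have h10 : ∀ δ ∈ l', δ = -β := fun δ hδ => hC0 δ (hl' δ hδ) (h7 h9 δ hδ)
  have h11 : l' = List.replicate l'.length (-β) := List.eq_replicate_iff.2 ⟨rfl, h10⟩
  obtain ⟨n, hn⟩ : ∃ n, n = l'.length := ⟨_, rfl⟩
  rw [← hn] at h11
  have h12 : γ = -ε + (n : ℚ) • β := by
    rw [h11, List.sum_replicate, ← Nat.cast_smul_eq_nsmul ℚ, smul_neg] at hsum'
    rw [← hsum']
    abel
  have h13 : S.R.pr β γ = 2 * n := by
    rw [h12, map_add, map_neg, h1, map_smul, S.R.two β hβ, smul_eq_mul]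
    ring
  have h14 : n = 0 ∨ n = 1 := by
    by_contra hcon
    push Not at hcon
    have hn2 : 2 ≤ n := by omega
    have hn2' : (2 : ℚ) ≤ n := by exact_mod_cast hn2
    have hne1 : γ ≠ β := by
      intro h0
      rw [h0, h2] at hγ0
      exact hγ0 rfl
    have hne2 : γ ≠ -β := by
      intro h0
      rw [h0, map_neg, h2, neg_zero] at hγ0
      exact hγ0 rfl
    obtain ⟨m, hm⟩ := S.R.int _ (hl1 γ hγ).1 _ hβ
    rcases S.R.cox β hβ γ (hl1 γ hγ).1 hne1 hne2 with h15 | ⟨h15, h16⟩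
    · rw [h13] at h15
      linarith [h15.1]
    · rw [h13, hm] at h15 h16
      have h17 : 0 < m := by
        by_contra h18
        have h19 : (m : ℚ) ≤ 0 := by exact_mod_cast not_lt.1 h18
        nlinarith
      have h18 : (1 : ℚ) ≤ m := by exact_mod_cast h17
      nlinarith
  rcases h14 with h14 | h14
  · rw [h14, List.replicate_zero] at h11
    rw [h14, Nat.cast_zero, zero_smul, add_zero] at h12
    rw [hgen, h11, h12]
    exact ⟨1, by simp⟩
  · rw [h14] at h11
    have h15 : -β + γ = -ε := by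
      rw [h12, h14, Nat.cast_one, one_smul]
      abel
    obtain ⟨s, hs⟩ := S.add1 (-β) (S.R.neg β hβ) γ (hl1 γ hγ).1 (by
      rw [h15]; exact S.R.neg ε hε)
    rw [h15] at hs
    refine ⟨s, ?_⟩
    have h16 := LinearMap.congr_fun hs v
    rw [LinearMap.sub_apply, Module.End.mul_apply, Module.End.mul_apply, hv, map_zero, sub_zero,
      LinearMap.smul_apply] at h16
    rw [hgen, h11, ← h16]
    simp

namespace UW

variable {S : RS L T} {x : Fin N → Module.Dual ℂ T} (h : UW S 𝔥 a b c x)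
  (hev : ∀ i, Even (Finset.univ.filter fun j => c j = c i).card)
include h hev

/-- A root is the difference of weights of one colour in only one way. -/
theorem same_col {β : Module.Dual ℂ T} (hβ : β ∈ S.R.Φ) {p q p' q' : Fin N} (hc : c p = c q)
    (hc' : c p' = c q') (hcc : c p = c p') (hx : x p - x q = β) (hx' : x p' - x q' = β) :
    p = p' := by
  classical
  by_contra hne
  have hβ0 : β ≠ 0 := fun h0 => S.R.zero (h0 ▸ hβ)
  have hxp : x p = x q + β := by rw [← hx]; abel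
  have hxp' : x p' = x q' + β := by rw [← hx']; abel
  have hpq' : p ≠ q' := by
    rintro rfl
    exact h.no3 hev hβ (i0 := p') (i1 := p) (i2 := q) hcc.symm hc.symm hxp' (by rw [hxp]; abel)
  have hqp' : q ≠ p' := by
    rintro rfl
    exact h.no3 hev hβ (i0 := p) (i1 := q) (i2 := q') hc hc'.symm hxp (by rw [hxp']; abel)
  obtain ⟨ε, hεd⟩ : ∃ ε, ε = x p - x p' := ⟨_, rfl⟩
  have hε : ε ∈ S.R.Φ := by rw [hεd]; exact h.sub_mem hev hcc hne
  have hs : ε + β ∈ S.R.Φ := by
    have h1 := h.sub_mem hev (hcc.trans hc') hpq'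
    have h2 : x p - x q' = ε + β := by rw [hεd, ← hx']; abel
    rw [← h2]
    exact h1
  have hd : ε - β ∈ S.R.Φ := by
    have h1 := h.sub_mem hev (hc.symm.trans hcc) hqp'
    have h2 : x q - x p' = ε - β := by rw [hεd, ← hx]; abel
    rw [← h2]
    exact h1
  have h1 : S.R.pr β ε = 0 := by
    rw [hεd, map_sub, h.pr_one hev hβ hc hxp, h.pr_one hev hβ hc' hxp', sub_self]
  have hne1 : ε ≠ β := by
    intro h0
    rw [h0, S.R.two β hβ] at h1
    norm_num at h1
  have hne2 : ε ≠ -β := by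
    intro h0
    rw [h0, map_neg, S.R.two β hβ] at h1
    norm_num at h1
  have h2 : S.R.pr ε β = 0 := by
    rcases S.R.cox β hβ ε hε hne1 hne2 with h2 | h2
    · exact h2.2
    · rw [h1, zero_mul] at h2
      linarith [h2.1]
  -- the functionals
  obtain ⟨φ', g1, g2, g3⟩ := lex2 (S.R.fin.union (dif_fin x)) (S.R.pr β) (S.R.pr ε)
  obtain ⟨ψ, φ, hl⟩ := exists_lex S.R (dif_fin x) (Submodule.span ℚ {β, ε}) φ'
  have hβP : β ∈ Submodule.span ℚ {β, ε} := Submodule.subset_span (Or.inl rfl)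
  have hεP : ε ∈ Submodule.span ℚ {β, ε} := Submodule.subset_span (Or.inr rfl)
  have hφβ : 0 < φ β := by
    rw [hl.eqP hβP, g3 β h2, S.R.two β hβ]
    norm_num
  have hφεβ : 0 < φ (ε - β) := by
    rw [hl.eqP (Submodule.sub_mem _ hεP hβP)]
    refine g1 _ (Or.inl hd) ?_
    rw [map_sub, h2, S.R.two ε hε]
    norm_num
  have hφ : ∀ α ∈ S.R.Φ, φ α ≠ 0 := hl.gen fun α hα hP => by
    rcases lt_trichotomy (S.R.pr ε α) 0 with h3 | h3 | h3
    · exact (g2 α (Or.inl hα) h3).ne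
    · obtain ⟨d, e, hde⟩ := Submodule.mem_span_pair.1 hP
      have h4 : e = 0 := by
        rw [← hde, map_add, map_smul, map_smul, h2, S.R.two ε hε, smul_eq_mul, smul_eq_mul] at h3
        linarith
      rw [h4, zero_smul, add_zero] at hde
      rw [g3 α h3, ← hde, map_smul, S.R.two β hβ, smul_eq_mul]
      intro h5
      have h6 : d = 0 := by linarith
      rw [h6, zero_smul] at hde
      exact S.R.zero (hde ▸ hα)
    · exact (g1 α (Or.inl hα) h3).ne'
  let F : Finset (Fin N) := Finset.univ.filter fun i => c i = c p ∧ φ (x q) ≤ φ (x i)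
  have hF : ∀ i, i ∈ F ↔ c i = c p ∧ φ (x q) ≤ φ (x i) := fun i => by simp [F]
  have e1 : φ (x p) - φ (x q) = φ β := by rw [← map_sub, hx]
  have e2 : φ (x p') - φ (x q') = φ β := by rw [← map_sub, hx']
  have e3 : φ (x q) - φ (x p') = φ (ε - β) := by
    rw [← map_sub, hεd, ← hx]
    congr 1
    abel
  have m0 : p ∈ F := (hF _).2 ⟨rfl, by linarith⟩
  have m1 : q ∈ F := (hF _).2 ⟨hc.symm, le_rfl⟩
  have m2 : p' ∉ F := fun hm => by linarith [((hF _).1 hm).2]
  have m3 : q' ∉ F := fun hm => by linarith [((hF _).1 hm).2]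
  have hcl : ∀ q ∈ F, ∀ p, p ∉ F → c p = c q → φ (x p) ≤ φ (x q) := fun q1 hq1 p1 hp1 h3 => by
    rw [hF] at hq1 hp1
    have h4 : ¬ φ (x q) ≤ φ (x p1) := fun h4 => hp1 ⟨h3.trans hq1.1, h4⟩
    exact (not_le.1 h4).le.trans hq1.2
  obtain ⟨v, hv0, hv⟩ := h.car.exists_state F
  -- the vector `e (-β) v` is zero
  have hkill : S.e (-β) v = 0 := by
    by_contra hcon
    obtain ⟨q1, hq1, p1, hp1, h3, h4⟩ := h.root_ne (S.R.neg β hβ) hv hcon
    rw [hF] at hq1 hp1
    have h5 : φ (x p1) < φ (x q) := not_le.1 fun h5 => hp1 ⟨h3.trans hq1.1, h5⟩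
    have h6 : x p1 - x q = (x q1 - x q) - β := by
      have h7 : x p1 = x q1 - β := by
        have : x p1 = (x p1 - x q1) + x q1 := by abel
        rw [this, h4]
        abel
      rw [h7]
      abel
    have h7 : ψ β = 0 := hl.zero _ hβP
    obtain ⟨h8, h9⟩ := hl.mem_of (y := x q1 - x q) (z := x p1 - x q) ⟨q1, q, rfl⟩ ⟨p1, q, rfl⟩
      (by rw [h6, map_sub ψ (x q1 - x q) β, h7, sub_zero]) (by rw [map_sub]; linarith [hq1.2])
      (by rw [map_sub]; linarith)
    have h10 : S.R.pr ε (x p1 - x q) = S.R.pr ε (x q1 - x q) := by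
      rw [h6, map_sub _ (x q1 - x q) β, h2, sub_zero]
    have h11 : S.R.pr ε (x q1 - x q) = 0 := by
      rcases lt_trichotomy (S.R.pr ε (x q1 - x q)) 0 with h11 | h11 | h11
      · have h12 := g2 _ (Or.inr ⟨q1, q, rfl⟩) h11
        rw [← hl.eqP h8, map_sub] at h12
        linarith [hq1.2]
      · exact h11
      · have h12 := g1 _ (Or.inr ⟨p1, q, rfl⟩) (h10 ▸ h11)
        rw [← hl.eqP h9, map_sub] at h12
        linarith
    obtain ⟨d, e, hde⟩ := Submodule.mem_span_pair.1 h8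
    have h12 : e = 0 := by
      rw [← hde, map_add, map_smul, map_smul, h2, S.R.two ε hε, smul_eq_mul, smul_eq_mul] at h11
      linarith
    rw [h12, zero_smul, add_zero] at hde
    rcases h.pos hev hβ hc (hq1.1.trans hc) hxp (m := d) (by rw [hde]; abel) with h13 | h13
    · apply hp1
      have h14 : p1 = q := by
        refine h.inj (h3.trans (hq1.1.trans hc)) ?_
        rw [h13, hx] at h6
        rw [sub_self] at h6
        exact sub_eq_zero.1 h6
      rw [h14]
      exact ⟨hc.symm, le_rfl⟩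
    · rw [h13] at h4 h3
      refine h.no3 hev hβ (i0 := p) (i1 := q) (i2 := p1) hc h3 hxp ?_
      have : x p1 = (x p1 - x q) + x q := by abel
      rw [this, h4]
      abel
  -- the two transitions
  have htr : ∀ {p1 q1 : Fin N}, c p1 = c q1 → x p1 - x q1 = -ε →
      ∃ s : ℂ, a p1 (b q1 v) = s • S.e (-ε) v := by
    intro p1 q1 h3 h4
    have h5 := h.words hφ hcl hv hv0 h3
    have h6 : a p1 (b q1 v) ∈ Submodule.span ℂ {S.e (-ε) v} := by
      refine (Submodule.span_le.2 ?_) h5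
      rintro _ ⟨l, h7, h8, rfl⟩
      obtain ⟨s, hs'⟩ := plane_words hβ hε hs hd h1 h2 hl (fun y hy => g1 y (Or.inl hy)) g3 hkill h7
        (h8.trans h4)
      rw [hs']
      exact Submodule.smul_mem _ _ (Submodule.mem_span_singleton_self _)
    obtain ⟨s, hs⟩ := Submodule.mem_span_singleton.1 h6
    exact ⟨s, hs.symm⟩
  obtain ⟨s, hs1⟩ := htr (p1 := p') (q1 := p) hcc.symm (by rw [hεd]; abel)
  obtain ⟨s', hs2⟩ := htr (p1 := q') (q1 := q) (hc'.symm.trans (hcc.symm.trans hc)) (by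
    have h3 : x q = x p - β := by rw [hxp]; abel
    have h4 : x q' = x p' - β := by rw [hxp']; abel
    rw [h3, h4, hεd]
    abel)
  obtain ⟨-, h3⟩ := h.car.TT hv hv0 m0 m2 m1 m3 hs1 hs2
  rw [h3] at hx
  rw [sub_self] at hx
  exact hβ0 hx.symm

/-- **All products `a p * b q` are in the Lie algebra.** -/
theorem ab_mem {p q : Fin N} (hc : c p = c q) (hpq : p ≠ q) : a p * b q ∈ L := by
  classical
  have hβ := h.sub_mem hev hc hpq
  have hβ0 : x p - x q ≠ 0 := fun h0 => S.R.zero (h0 ▸ hβ)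
  obtain ⟨M, hM, hMe⟩ := h.expand hβ0 (h.le (h.Lle (S.emem _ hβ))) (fun t => S.wt _ hβ t)
  have h1 : ∀ i j, M i j ≠ 0 → i = p ∧ j = q := by
    intro i j h0
    obtain ⟨h2, h3⟩ := hM i j h0
    have h4 : c i = c p := h.two_col hβ h2 hc h3 rfl
    have h5 : i = p := h.same_col hev hβ h2 hc h4 h3 rfl
    refine ⟨h5, h.inj (h2.symm.trans (h4.trans hc)) ?_⟩
    rw [h5] at h3
    exact sub_right_injective h3
  have h2 : S.e (x p - x q) = M p q • (a p * b q) := by
    rw [hMe, Finset.sum_eq_single p, Finset.sum_eq_single q]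
    · intro j _ hj
      have : M p j = 0 := by
        by_contra h3
        exact hj (h1 p j h3).2
      rw [this, zero_smul]
    · intro h3
      exact absurd (Finset.mem_univ _) h3
    · intro i _ hi
      refine Finset.sum_eq_zero fun j _ => ?_
      have : M i j = 0 := by
        by_contra h3
        exact hi (h1 i j h3).1
      rw [this, zero_smul]
    · intro h3
      exact absurd (Finset.mem_univ _) h3
  have h3 : M p q ≠ 0 := by
    intro h3
    rw [h3, zero_smul] at h2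
    exact S.ene _ hβ h2
  have h4 : a p * b q = (M p q)⁻¹ • S.e (x p - x q) := by
    rw [h2, smul_smul, inv_mul_cancel₀ h3, one_smul]
  rw [h4]
  exact L.smul_mem _ (S.emem _ hβ)

end UW

end Pool.Agent.R912
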